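import Mathlib
import Pool.Agent.R591.PL.Group

set_option autoImplicit false

/-!
# MP_d907e7_lc: plastic `ℵ₁`-dense sets and subgroups of the real line

Q1 is refuted in ZFC: some `ℵ₁`-dense set of reals is plastic (its only non-expansive injection
into itself is the identity). Q2 is proved: under PFA no `ℵ₁`-dense subgroup is plastic.
-/

namespace Pool.Agent.Results.MP_d907e7_lc.PlasticSets

open Set Cardinal Pool.Agent.R591.PL

/-- (1) There is an `ℵ₁`-dense set `X` of reals such that every non-expansive injection of `X` into
`X` is the identity; in particular, `X` is plastic. (2) Under PFA, no `ℵ₁`-dense subgroup of the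
reals is plastic. -/
theorem result :
    (∃ X : Set ℝ, AlephOneDense X ∧ Plastic X ∧
      ∀ f : X → X, Function.Injective f → (∀ x y, dist (f x) (f y) ≤ dist x y) → ∀ x, f x = x) ∧
    (PFA → ∀ H : AddSubgroup ℝ, AlephOneDense (H : Set ℝ) → ¬ Plastic (H : Set ℝ)) := by
  refine ⟨?_, not_plastic_of_PFA⟩
  obtain ⟨X, hX, h⟩ := exists_plastic
  refine ⟨X, hX, ?_, h⟩
  intro f hf hne
  have : f = id := funext (h f hf.1 hne)
  rw [this]
  exact isometry_id

end Pool.Agent.Results.MP_d907e7_lc.PlasticSets
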